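import Mathlib
import Pool.Agent.Helper72.ELRHalf

/-! Geometry block of project UD (MP_1243c9): points whose coordinates are `X = ∑ x_k W_k` and
`∑ e_i τ^i`, half-planes with infinitely close slopes; a half-plane which knows the levels below
`i` and the digits of `s^i = x + t^i` before `k` compares the digit `s^i_k` with `θ`. -/

namespace Pool.Agent.Helper72.UD

open Finset

section Weights

variable {ι : Type*} [Fintype ι] [LinearOrder ι]

/-- super-decreasing weights on a finite linear order -/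
noncomputable def wgt (K : ℝ) (i : ι) : ℝ := K ^ (univ.filter (fun j : ι => i < j)).card

theorem wgt_pos {K : ℝ} (hK : 0 < K) (i : ι) : 0 < wgt K i := pow_pos hK _

theorem card_lt_card {i j : ι} (h : i < j) :
    (univ.filter (fun l : ι => j < l)).card < (univ.filter (fun l : ι => i < l)).card := by
  apply Finset.card_lt_card
  rw [Finset.ssubset_iff_of_subset]
  · refine ⟨j, ?_, ?_⟩
    · simp [h]
    · simp
  · intro l hl
    simp only [mem_filter, mem_univ, true_and] at hl ⊢
    exact h.trans hl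

theorem sum_wgt_le {K : ℝ} (hK : 1 < K) (i : ι) :
    (K - 1) * ∑ j ∈ univ.filter (fun j : ι => i < j), wgt K j ≤ wgt K i - 1 := by
  set F := univ.filter (fun j : ι => i < j) with hF
  have hinj : Set.InjOn (fun j : ι => (univ.filter (fun l : ι => j < l)).card) (F : Set ι) := by
    intro a _ b _ hab
    rcases lt_trichotomy a b with h | h | h
    · exact absurd hab (card_lt_card h).ne'
    · exact h
    · exact absurd hab (card_lt_card h).ne
  have hsub : F.image (fun j : ι => (univ.filter (fun l : ι => j < l)).card) ⊆ range F.card := by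
    intro c hc
    obtain ⟨j, hj, rfl⟩ := mem_image.mp hc
    rw [mem_range]
    exact card_lt_card (mem_filter.mp hj).2
  have h1 : ∑ j ∈ F, wgt K j ≤ ∑ c ∈ range F.card, K ^ c := by
    have : ∑ j ∈ F, wgt K j =
        ∑ c ∈ F.image (fun j : ι => (univ.filter (fun l : ι => j < l)).card), K ^ c :=
      (sum_image (f := fun c : ℕ => K ^ c) (fun a ha b hb h => hinj ha hb h)).symm
    rw [this]
    exact sum_le_sum_of_subset_of_nonneg hsub (fun _ _ _ => by positivity)
  have h2 : (K - 1) * ∑ c ∈ range F.card, K ^ c = K ^ F.card - 1 := by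
    rw [mul_comm]; exact geom_sum_mul K F.card
  calc (K - 1) * ∑ j ∈ F, wgt K j ≤ (K - 1) * ∑ c ∈ range F.card, K ^ c :=
        mul_le_mul_of_nonneg_left h1 (by linarith)
    _ = K ^ F.card - 1 := h2
    _ = wgt K i - 1 := rfl

/-- the sign of a sum with super-decreasing weights is the sign of its first term -/
theorem sign_iff {K U δ : ℝ} (hK : 1 < K) (hδ : 0 < δ) (hKU : U ≤ δ * (K - 1))
    (i : ι) (c : ι → ℝ) (hc : ∀ j, |c j| ≤ U) (hi : δ ≤ |c i|) :
    0 ≤ ∑ j ∈ univ.filter (fun j : ι => i ≤ j), wgt K j * c j ↔ 0 < c i := by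
  have hK0 : 0 < K := by linarith
  have hsplit : univ.filter (fun j : ι => i ≤ j) = insert i (univ.filter (fun j : ι => i < j)) := by
    ext j
    simp only [mem_filter, mem_univ, true_and, mem_insert]
    constructor
    · intro h
      rcases h.eq_or_lt with h | h
      · exact Or.inl h.symm
      · exact Or.inr h
    · rintro (h | h)
      · exact h.ge
      · exact h.le
  rw [hsplit, sum_insert (by simp)]
  set R := ∑ j ∈ univ.filter (fun j : ι => i < j), wgt K j * c j with hR
  have h1 : |R| ≤ U * ∑ j ∈ univ.filter (fun j : ι => i < j), wgt K j := by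
    calc |R| ≤ ∑ j ∈ univ.filter (fun j : ι => i < j), |wgt K j * c j| :=
          abs_sum_le_sum_abs _ _
      _ ≤ ∑ j ∈ univ.filter (fun j : ι => i < j), U * wgt K j := by
          apply sum_le_sum
          intro j _
          rw [abs_mul, abs_of_pos (wgt_pos hK0 j), mul_comm]
          exact mul_le_mul_of_nonneg_right (hc j) (wgt_pos hK0 j).le
      _ = U * ∑ j ∈ univ.filter (fun j : ι => i < j), wgt K j := by rw [mul_sum]
  have h2 : |R| < δ * wgt K i := by
    have hs : 0 ≤ ∑ j ∈ univ.filter (fun j : ι => i < j), wgt K j :=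
      sum_nonneg fun j _ => (wgt_pos hK0 j).le
    have h3 := sum_wgt_le hK i
    have h4 : U * ∑ j ∈ univ.filter (fun j : ι => i < j), wgt K j ≤
        δ * (K - 1) * ∑ j ∈ univ.filter (fun j : ι => i < j), wgt K j :=
      mul_le_mul_of_nonneg_right hKU hs
    nlinarith
  have hw := wgt_pos hK0 i
  rw [abs_lt] at h2
  rcases le_abs.mp hi with h | h
  · constructor
    · intro _; linarith
    · intro _; nlinarith
  · constructor
    · intro h0; nlinarith
    · intro h0; linarith

/-- comparison of the digit at position `k` of `s` with `θ` by a number which knows the digits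
before `k` -/
theorem digit_cmp {D : ℕ} (s σ : ι → ℕ) (k : ι) (θ : ℕ) (hs : ∀ l, s l ≤ D)
    (hσ : ∀ l, l < k → σ l = s l) :
    (1 / (2 * (2 * (D : ℝ) + 1)) ≤
      |∑ l, (s l : ℝ) * wgt (2 * (D : ℝ) + 2) l -
        (∑ l ∈ univ.filter (fun l : ι => l < k), (σ l : ℝ) * wgt (2 * (D : ℝ) + 2) l +
          ((θ : ℝ) + 1 / 2) * wgt (2 * (D : ℝ) + 2) k)|) ∧
    (0 < ∑ l, (s l : ℝ) * wgt (2 * (D : ℝ) + 2) l -
        (∑ l ∈ univ.filter (fun l : ι => l < k), (σ l : ℝ) * wgt (2 * (D : ℝ) + 2) l +
          ((θ : ℝ) + 1 / 2) * wgt (2 * (D : ℝ) + 2) k) ↔ θ < s k) := by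
  set Q : ℝ := 2 * (D : ℝ) + 2 with hQ
  have hD : (0 : ℝ) ≤ D := Nat.cast_nonneg D
  have hQ1 : 1 < Q := by rw [hQ]; linarith
  have hQ0 : 0 < Q := by linarith
  have hsplit : (univ : Finset ι) = univ.filter (fun l : ι => l < k) ∪
      insert k (univ.filter (fun l : ι => k < l)) := by
    ext l
    simp only [mem_univ, mem_union, mem_filter, true_and, mem_insert, true_iff]
    rcases lt_trichotomy l k with h | h | h
    · exact Or.inl h
    · exact Or.inr (Or.inl h)
    · exact Or.inr (Or.inr h)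
  have hdisj : Disjoint (univ.filter (fun l : ι => l < k))
      (insert k (univ.filter (fun l : ι => k < l))) := by
    rw [Finset.disjoint_left]
    intro l hl hl'
    simp only [mem_filter, mem_univ, true_and, mem_insert] at hl hl'
    rcases hl' with h | h
    · exact absurd hl (by rw [h]; exact lt_irrefl _)
    · exact absurd hl (lt_asymm h)
  have hsum : ∑ l, (s l : ℝ) * wgt Q l =
      ∑ l ∈ univ.filter (fun l : ι => l < k), (σ l : ℝ) * wgt Q l + ((s k : ℝ) * wgt Q k +
        ∑ l ∈ univ.filter (fun l : ι => k < l), (s l : ℝ) * wgt Q l) := by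
    have e0 : ∑ l, (s l : ℝ) * wgt Q l = ∑ l ∈ univ.filter (fun l : ι => l < k) ∪
        insert k (univ.filter (fun l : ι => k < l)), (s l : ℝ) * wgt Q l :=
      sum_congr hsplit (fun _ _ => rfl)
    have e1 : ∑ l ∈ univ.filter (fun l : ι => l < k), (s l : ℝ) * wgt Q l =
        ∑ l ∈ univ.filter (fun l : ι => l < k), (σ l : ℝ) * wgt Q l := by
      apply sum_congr rfl
      intro l hl
      rw [hσ l (mem_filter.mp hl).2]
    rw [e0, sum_union hdisj, sum_insert (by simp), e1]
  set T := ∑ l ∈ univ.filter (fun l : ι => k < l), (s l : ℝ) * wgt Q l with hT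
  have hT0 : 0 ≤ T := sum_nonneg fun l _ => mul_nonneg (Nat.cast_nonneg _) (wgt_pos hQ0 l).le
  have hw := wgt_pos hQ0 k
  have hw1 : 1 ≤ wgt Q k := one_le_pow₀ hQ1.le
  have hTle : (Q - 1) * T ≤ D * (wgt Q k - 1) := by
    have h1 : T ≤ D * ∑ l ∈ univ.filter (fun l : ι => k < l), wgt Q l := by
      rw [hT, mul_sum]
      apply sum_le_sum
      intro l _
      exact mul_le_mul_of_nonneg_right (by exact_mod_cast hs l) (wgt_pos hQ0 l).le
    have h2 := sum_wgt_le hQ1 k
    calc (Q - 1) * T ≤ (Q - 1) * (D * ∑ l ∈ univ.filter (fun l : ι => k < l), wgt Q l) :=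
          mul_le_mul_of_nonneg_left h1 (by linarith)
      _ = D * ((Q - 1) * ∑ l ∈ univ.filter (fun l : ι => k < l), wgt Q l) := by ring
      _ ≤ D * (wgt Q k - 1) := mul_le_mul_of_nonneg_left h2 hD
  have hval : ∑ l, (s l : ℝ) * wgt Q l -
        (∑ l ∈ univ.filter (fun l : ι => l < k), (σ l : ℝ) * wgt Q l +
          ((θ : ℝ) + 1 / 2) * wgt Q k) = ((s k : ℝ) - θ - 1 / 2) * wgt Q k + T := by
    rw [hsum]; ring
  rw [hval]
  have hQe : Q - 1 = 2 * D + 1 := by rw [hQ]; ring
  rw [hQe] at hTle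
  have hc : (0 : ℝ) < 2 * D + 1 := by linarith
  have hTw : T ≤ (1 / 2 - 1 / (2 * (2 * D + 1))) * wgt Q k := by
    have e : (1 / 2 - 1 / (2 * (2 * (D : ℝ) + 1))) * wgt Q k = D * wgt Q k / (2 * D + 1) := by
      field_simp; ring
    rw [e, le_div_iff₀ hc]
    nlinarith
  have hδ : (0 : ℝ) < 1 / (2 * (2 * D + 1)) := by positivity
  rcases Nat.lt_or_ge θ (s k) with h | h
  · have h1 : (1 : ℝ) / 2 ≤ (s k : ℝ) - θ - 1 / 2 := by
      have : (θ : ℝ) + 1 ≤ s k := by exact_mod_cast h
      linarith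
    have h2 : 1 / (2 * (2 * (D : ℝ) + 1)) ≤ 1 / 2 := by
      apply one_div_le_one_div_of_le (by norm_num); linarith
    have h3 : 1 / (2 * (2 * (D : ℝ) + 1)) ≤ ((s k : ℝ) - θ - 1 / 2) * wgt Q k + T := by
      nlinarith
    refine ⟨h3.trans (le_abs_self _), ?_⟩
    exact ⟨fun _ => h, fun _ => lt_of_lt_of_le hδ h3⟩
  · have h1 : (s k : ℝ) - θ - 1 / 2 ≤ -(1 / 2) := by
      have : (s k : ℝ) ≤ θ := by exact_mod_cast h
      linarith
    have h3 : ((s k : ℝ) - θ - 1 / 2) * wgt Q k + T ≤ -(1 / (2 * (2 * (D : ℝ) + 1))) := by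
      have h4 : ((s k : ℝ) - θ - 1 / 2) * wgt Q k ≤ -(1 / 2) * wgt Q k :=
        mul_le_mul_of_nonneg_right h1 hw.le
      have h5 : 1 / (2 * (2 * (D : ℝ) + 1)) ≤ 1 / (2 * (2 * (D : ℝ) + 1)) * wgt Q k :=
        le_mul_of_one_le_right hδ.le hw1
      nlinarith
    refine ⟨?_, ?_⟩
    · rw [abs_of_nonpos (by linarith)]; linarith
    · constructor
      · intro h6; linarith
      · intro h6; omega

end Weights

/-- GEOMETRY: for every finite set of points (digits `x`, secret digits `t` on every level) and of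
half-planes (level, position, known lower levels `th`, known prefix `sg`, threshold) there are
centres of unit balls in dimension `d + 2` such that every half-plane which is named after a point
(it knows the right lower levels and the right prefix) is within distance one of the point iff the
threshold is smaller than the digit. -/
theorem geometry {ι Λ P H : Type*} [Fintype ι] [LinearOrder ι] [Fintype Λ] [LinearOrder Λ]
    [Finite P] [Finite H] (d D : ℕ) (x : P → ι → ℕ) (t : P → Λ → ι → ℕ)
    (hD : ∀ p i k, x p k + t p i k ≤ D)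
    (lev : H → Λ) (pos : H → ι) (th : H → Λ → ι → ℕ) (sg : H → ι → ℕ) (θ : H → ℕ) :
    ∃ (X : P → EuclideanSpace ℝ (Fin (d + 2))) (Y : H → EuclideanSpace ℝ (Fin (d + 2))),
      ∀ p h, (∀ j < lev h, ∀ k, th h j k = t p j k) →
        (∀ k < pos h, sg h k = x p k + t p (lev h) k) →
        (dist (X p) (Y h) ≤ 1 ↔ θ h < x p (pos h) + t p (lev h) (pos h)) := by
  classical
  set Q : ℝ := 2 * (D : ℝ) + 2 with hQ
  -- the numbers
  let xx : P → ℝ := fun p => ∑ k, (x p k : ℝ) * wgt Q k
  let τ : P → Λ → ℝ := fun p i => ∑ k, (t p i k : ℝ) * wgt Q k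
  let τ' : H → Λ → ℝ := fun h i => ∑ k, (th h i k : ℝ) * wgt Q k
  let a : H → ℝ := fun h => ∑ l ∈ univ.filter (fun l : ι => l < pos h), (sg h l : ℝ) * wgt Q l +
          ((θ h : ℝ) + 1 / 2) * wgt Q (pos h)
  let c : P → H → Λ → ℝ := fun p h j => xx p + τ p j - a h
  obtain ⟨U, hU⟩ : ∃ U : ℝ, ∀ q : P × H × Λ, |c q.1 q.2.1 q.2.2| ≤ U := by
    obtain ⟨U, hU⟩ := (Set.finite_range (fun q : P × H × Λ => |c q.1 q.2.1 q.2.2|)).bddAbove
    exact ⟨U, fun q => hU ⟨q, rfl⟩⟩
  set δ : ℝ := 1 / (2 * (2 * (D : ℝ) + 1)) with hδ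
  have hδ0 : 0 < δ := by positivity
  set U' : ℝ := max U 0 with hU'
  set K : ℝ := 2 + U' / δ with hK
  have hU0 : 0 ≤ U' := le_max_right _ _
  have hK1 : 1 < K := by
    have : 0 ≤ U' / δ := by positivity
    rw [hK]; linarith
  have hKU : U' ≤ δ * (K - 1) := by
    have : δ * (K - 1) = δ + U' := by rw [hK]; field_simp; ring
    rw [this]; linarith
  -- points and half-planes
  let pt : P → EuclideanSpace ℝ (Fin (d + 2)) := fun p =>
    WithLp.toLp 2 (Fin.cons (xx p) (Fin.cons (∑ i, wgt K i * τ p i) (fun _ => 0)))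
  let S : H → ℝ := fun h => ∑ j ∈ univ.filter (fun j : Λ => lev h ≤ j), wgt K j
  let nrm : H → EuclideanSpace ℝ (Fin (d + 2)) := fun h =>
    WithLp.toLp 2 (Fin.cons (-(S h)) (Fin.cons (-1) (fun _ => 0)))
  let b : H → ℝ := fun h => -(S h * a h +
    ∑ j ∈ univ.filter (fun j : Λ => j < lev h), wgt K j * τ' h j)
  obtain ⟨X, Y, hXY⟩ := Pool.Agent.Helper72.ELR.exists_unitBall_approx
    (show 1 ≤ d + 2 by omega) pt nrm b
  refine ⟨X, Y, fun p h hth hsg => ?_⟩
  rw [hXY]
  have hinner : inner ℝ (nrm h) (pt p) = -(S h * xx p) - ∑ i, wgt K i * τ p i := by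
    simp only [nrm, pt, PiLp.inner_apply, Fin.sum_univ_succ, Fin.cons_zero, Fin.cons_succ]
    simp only [RCLike.inner_apply, conj_trivial, mul_neg, mul_zero, sum_const_zero, add_zero,
      mul_one]
    ring
  rw [hinner]
  have hsplit : ∑ i, wgt K i * τ p i = ∑ j ∈ univ.filter (fun j : Λ => j < lev h), wgt K j * τ' h j
      + ∑ j ∈ univ.filter (fun j : Λ => lev h ≤ j), wgt K j * τ p j := by
    have e1 : ∑ j ∈ univ.filter (fun j : Λ => j < lev h), wgt K j * τ' h j =
        ∑ j ∈ univ.filter (fun j : Λ => j < lev h), wgt K j * τ p j := by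
      apply sum_congr rfl
      intro j hj
      have hj' := (mem_filter.mp hj).2
      have : τ' h j = τ p j := by
        simp only [τ', τ]
        apply sum_congr rfl
        intro k _
        rw [hth j hj' k]
      rw [this]
    rw [e1]
    have e2 : univ.filter (fun j : Λ => lev h ≤ j) =
        univ.filter (fun j : Λ => ¬ j < lev h) := by
      ext j; simp
    rw [e2, sum_filter_add_sum_filter_not]
  have hmain : ∑ j ∈ univ.filter (fun j : Λ => lev h ≤ j), wgt K j * c p h j =
      S h * xx p - S h * a h + ∑ j ∈ univ.filter (fun j : Λ => lev h ≤ j), wgt K j * τ p j := by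
    simp only [c, S]
    rw [sum_mul, sum_mul, ← sum_sub_distrib, ← sum_add_distrib]
    apply sum_congr rfl
    intro j _
    ring
  have hiff : -(S h * xx p) - ∑ i, wgt K i * τ p i ≤ b h ↔
      0 ≤ ∑ j ∈ univ.filter (fun j : Λ => lev h ≤ j), wgt K j * c p h j := by
    rw [hmain, hsplit]
    simp only [b]
    constructor <;> intro h0 <;> linarith
  rw [hiff]
  have hdig := digit_cmp (D := D) (fun k => x p k + t p (lev h) k) (sg h) (pos h) (θ h)
    (fun l => hD p (lev h) l) (fun l hl => hsg l hl)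
  have hcval : c p h (lev h) = ∑ l, ((x p l + t p (lev h) l : ℕ) : ℝ) * wgt Q l - a h := by
    simp only [c, xx, τ]
    rw [← sum_add_distrib]
    congr 1
    apply sum_congr rfl
    intro l _
    push_cast
    ring
  have h1 : δ ≤ |c p h (lev h)| := by
    rw [hcval]; exact hdig.1
  have h2 : 0 < c p h (lev h) ↔ θ h < x p (pos h) + t p (lev h) (pos h) := by
    rw [hcval]; exact hdig.2
  rw [← h2]
  exact sign_iff hK1 hδ0 hKU (lev h) (c p h)
    (fun j => (hU (p, h, j)).trans (le_max_left _ _)) h1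

end Pool.Agent.Helper72.UD
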