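import Mathlib
import Pool.Agent.Helper72.UD.Geo

/-! Assembly block of project UD (MP_1243c9): from an efficient local representation of unit ball
graphs to labels for points and half-planes. -/

namespace Pool.Agent.Helper72.UD

open Finset Pool.Agent.Helper72.ELR

/-- From labels of unit ball graphs to labels of the point / half-plane system of `geometry`. -/
theorem labels_of_unitBall {d : ℕ} (h : HasELR (UnitBall (d + 2))) :
    ∃ (A : ℕ → ℕ → Prop) (c : ℕ), 1 ≤ c ∧ ∀ (ι Λ P H : Type) [Fintype ι] [LinearOrder ι]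
      [Fintype Λ] [LinearOrder Λ] [Fintype P] [Fintype H] (D : ℕ) (x : P → ι → ℕ)
      (t : P → Λ → ι → ℕ) (_ : ∀ p i k, x p k + t p i k ≤ D)
      (lev : H → Λ) (pos : H → ι) (th : H → Λ → ι → ℕ) (sg : H → ι → ℕ) (θ : H → ℕ),
      ∃ (lP : P → ℕ) (lH : H → ℕ),
        (∀ p, 1 ≤ lP p ∧ lP p ≤ (Fintype.card P + Fintype.card H) ^ c) ∧
        (∀ η, 1 ≤ lH η ∧ lH η ≤ (Fintype.card P + Fintype.card H) ^ c) ∧
        ∀ p η, (∀ j < lev η, ∀ k, th η j k = t p j k) →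
          (∀ k < pos η, sg η k = x p k + t p (lev η) k) →
          (A (lP p) (lH η) ↔ θ η < x p (pos η) + t p (lev η) (pos η)) := by
  classical
  obtain ⟨A, hsymm, c, hc, hA⟩ := h
  refine ⟨A, c, hc, ?_⟩
  intro ι Λ P H _ _ _ _ _ _ D x t hD lev pos th sg θ
  obtain ⟨X, Y, hXY⟩ := geometry d D x t hD lev pos th sg θ
  set n := Fintype.card P + Fintype.card H with hn
  have hcard : Fintype.card (P ⊕ H) = n := Fintype.card_sum
  let e : P ⊕ H ≃ Fin n := Fintype.equivFinOfCardEq hcard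
  let f : Fin n → EuclideanSpace ℝ (Fin (d + 2)) := fun v => Sum.elim X Y (e.symm v)
  let G : SimpleGraph (Fin n) :=
    { Adj := fun v w => v ≠ w ∧ dist (f v) (f w) ≤ 1
      symm := ⟨fun v w hvw => ⟨hvw.1.symm, by rw [dist_comm]; exact hvw.2⟩⟩
      loopless := ⟨fun v hv => hv.1 rfl⟩ }
  have hG : UnitBall (d + 2) n G := ⟨f, fun v w hvw => ⟨fun h => h.2, fun h => ⟨hvw, h⟩⟩⟩
  obtain ⟨l, hl, hadj⟩ := hA n G hG
  refine ⟨fun p => l (e (Sum.inl p)), fun η => l (e (Sum.inr η)), fun p => hl _, fun η => hl _,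
    fun p η hth hsg => ?_⟩
  have hne : e (Sum.inl p) ≠ e (Sum.inr η) := by
    intro h0
    have := e.injective h0
    simp at this
  rw [← hadj _ _ hne]
  have hf1 : f (e (Sum.inl p)) = X p := by simp [f]
  have hf2 : f (e (Sum.inr η)) = Y η := by simp [f]
  rw [← hXY p η hth hsg]
  constructor
  · rintro ⟨-, h2⟩
    rw [hf1, hf2] at h2
    exact h2
  · intro h2
    exact ⟨hne, by rw [hf1, hf2]; exact h2⟩

/-- The same with a total relation on `ℕ` for all `d ≥ 2`. -/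
theorem labels_of_unitBall' {d : ℕ} (hd : 2 ≤ d) (h : HasELR (UnitBall d)) :
    ∃ (A : ℕ → ℕ → Prop) (c : ℕ), 1 ≤ c ∧ ∀ (ι Λ P H : Type) [Fintype ι] [LinearOrder ι]
      [Fintype Λ] [LinearOrder Λ] [Fintype P] [Fintype H] (D : ℕ) (x : P → ι → ℕ)
      (t : P → Λ → ι → ℕ) (_ : ∀ p i k, x p k + t p i k ≤ D)
      (lev : H → Λ) (pos : H → ι) (th : H → Λ → ι → ℕ) (sg : H → ι → ℕ) (θ : H → ℕ),
      ∃ (lP : P → ℕ) (lH : H → ℕ),
        (∀ p, 1 ≤ lP p ∧ lP p ≤ (Fintype.card P + Fintype.card H) ^ c) ∧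
        (∀ η, 1 ≤ lH η ∧ lH η ≤ (Fintype.card P + Fintype.card H) ^ c) ∧
        ∀ p η, (∀ j < lev η, ∀ k, th η j k = t p j k) →
          (∀ k < pos η, sg η k = x p k + t p (lev η) k) →
          (A (lP p) (lH η) ↔ θ η < x p (pos η) + t p (lev η) (pos η)) := by
  obtain ⟨d', rfl⟩ := Nat.exists_eq_add_of_le' hd
  exact labels_of_unitBall h

end Pool.Agent.Helper72.UD
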