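import Mathlib
import Pool.Agent.Helper72.UD.Asm
import Pool.Agent.Helper87.UD.Defs

/-! Final assembly of project UD (MP_1243c9): unit ball graphs have no efficient local
representation, from the core inequality and the numerical lemma. -/

namespace Pool.Agent.Helper72.UD

open Pool.Agent.Helper87.UD Pool.Agent.Helper72.ELR

/-- labels for all tables at once (the statement needed from the geometry) -/
def Scheme : Prop :=
  ∃ (A : ℕ → ℕ → Bool) (C : ℕ), ∀ (M g D B : ℕ) [NeZero B],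
    ∃ (lp : Sec M g B → Pt M g D B → ℕ) (lh : Sec M g B → Nm M g D B → ℕ),
      (∀ S p, lp S p ≤ (Fintype.card (Pt M g D B) + Fintype.card (Nm M g D B) + 1) ^ C) ∧
      (∀ S η, lh S η ≤ (Fintype.card (Pt M g D B) + Fintype.card (Nm M g D B) + 1) ^ C) ∧
      ∀ S p i u v, A (lp S p) (lh S (nm S p i u v (p.1 u v))) = tt S p i u v

/-- the geometry gives the scheme -/
theorem scheme_of_unitBall {d : ℕ} (hd : 2 ≤ d) (h : HasELR (UnitBall d)) : Scheme := by
  classical
  obtain ⟨A, c, -, hA⟩ := labels_of_unitBall' hd h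
  refine ⟨fun a b => decide (A a b), c, ?_⟩
  intro M g D B _
  have key : ∀ S : Sec M g B, ∃ (lP : Pt M g D B → ℕ) (lH : Nm M g D B → ℕ),
      (∀ p, lP p ≤ (Fintype.card (Pt M g D B) + Fintype.card (Nm M g D B) + 1) ^ c) ∧
      (∀ η, lH η ≤ (Fintype.card (Pt M g D B) + Fintype.card (Nm M g D B) + 1) ^ c) ∧
      ∀ p i u v, decide (A (lP p) (lH (nm S p i u v (p.1 u v)))) = tt S p i u v := by
    intro S
    have hb : ∀ p : Pt M g D B, ∀ i : Fin M, ∀ k : Fin g ×ₗ Fin g,
        (p.1 (ofLex k).1 (ofLex k).2).val +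
          (if tt S p i (ofLex k).1 (ofLex k).2 then 1 else 0) ≤ D := by
      intro p i k
      have := (p.1 (ofLex k).1 (ofLex k).2).isLt
      split <;> omega
    obtain ⟨lP, lH, h1, h2, h3⟩ := hA (Fin g ×ₗ Fin g) (Fin M) (Pt M g D B) (Nm M g D B) D
      (fun p k => (p.1 (ofLex k).1 (ofLex k).2).val)
      (fun p i k => if tt S p i (ofLex k).1 (ofLex k).2 then 1 else 0) hb
      (fun η => η.1) (fun η => toLex (η.2.1, η.2.2.1))
      (fun η j k => if S j (ofLex k).1 (ofLex k).2 (η.2.2.2.1 j (ofLex k).1)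
        (η.2.2.2.2.1 j (ofLex k).2) then 1 else 0)
      (fun η k => (η.2.2.2.2.2.1 (ofLex k).1 (ofLex k).2).val)
      (fun η => η.2.2.2.2.2.2.val)
    refine ⟨lP, lH, fun p => (h1 p).2.trans ?_, fun η => (h2 η).2.trans ?_, ?_⟩
    · exact Nat.pow_le_pow_left (Nat.le_succ _) _
    · exact Nat.pow_le_pow_left (Nat.le_succ _) _
    · intro p i u v
      have hyp1 : ∀ j < i, ∀ k : Fin g ×ₗ Fin g,
          (if S j (ofLex k).1 (ofLex k).2 (maskL i p.2.1 j (ofLex k).1)
            (maskL i p.2.2 j (ofLex k).2) = true then 1 else 0) =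
          if tt S p j (ofLex k).1 (ofLex k).2 = true then 1 else 0 := by
        intro j hj k
        have e : S j (ofLex k).1 (ofLex k).2 (maskL i p.2.1 j (ofLex k).1)
            (maskL i p.2.2 j (ofLex k).2) = tt S p j (ofLex k).1 (ofLex k).2 := by
          simp only [maskL, if_pos hj, tt]
        rw [e]
      have hyp2 : ∀ k < toLex (u, v), (maskD u v (ss S p i) (ofLex k).1 (ofLex k).2).val =
          (p.1 (ofLex k).1 (ofLex k).2).val +
            if tt S p i (ofLex k).1 (ofLex k).2 = true then 1 else 0 := by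
        intro k hk
        rw [Prod.Lex.lt_iff] at hk
        simp only [ofLex_toLex] at hk
        simp only [maskD, if_pos hk, ss]
      have h4 : A (lP p) (lH (nm S p i u v (p.1 u v))) ↔
          (p.1 u v).val < (p.1 u v).val + (if tt S p i u v = true then 1 else 0) :=
        h3 p (nm S p i u v (p.1 u v)) hyp1 hyp2
      have h5 : (p.1 u v).val < (p.1 u v).val + (if tt S p i u v = true then 1 else 0) ↔
          tt S p i u v = true := by
        split_ifs with h6
        · simp [h6]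
        · simp [h6]
      rw [h5] at h4
      rw [Bool.eq_iff_iff, decide_eq_true_iff]
      exact h4
  choose lP lH h1 h2 h3 using key
  exact ⟨lP, lH, h1, h2, h3⟩

/-- the core inequality (statement) -/
def CoreStmt : Prop :=
  ∀ (M g D B : ℕ) [NeZero M] [NeZero g] [NeZero D] [NeZero B] (L : Type) [Fintype L]
    (lp : Sec M g B → Pt M g D B → L) (lh : Sec M g B → Nm M g D B → L) (A : L → L → Bool),
    (∀ S p i u v, A (lp S p) (lh S (nm S p i u v (p.1 u v))) = tt S p i u v) →
    2 * g ^ 2 ≤ D →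
    24 * (M : ℝ) * (g : ℝ) ^ 2 * ((D : ℝ) + 2) * Real.log (Fintype.card L) ≤ B * Real.log 2 →
    (M : ℝ) * (g : ℝ) ^ 2 * Real.log 2 / 2 ≤ Real.log (Fintype.card L)

/-- the numerical lemma (statement) -/
def NumStmt : Prop :=
  ∀ C : ℕ, ∃ M g D B : ℕ, 0 < M ∧ 0 < g ∧ 0 < D ∧ 0 < B ∧ 2 * g ^ 2 ≤ D ∧
    24 * (M : ℝ) * (g : ℝ) ^ 2 * ((D : ℝ) + 2) * Real.log
      (((Fintype.card (Pt M g D B) + Fintype.card (Nm M g D B) + 1) ^ C + 1 : ℕ) : ℝ) ≤
      B * Real.log 2 ∧
    Real.log (((Fintype.card (Pt M g D B) + Fintype.card (Nm M g D B) + 1) ^ C + 1 : ℕ) : ℝ) <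
      (M : ℝ) * (g : ℝ) ^ 2 * Real.log 2 / 2

/-- the final contradiction -/
theorem not_scheme (core : CoreStmt) (num : NumStmt) : ¬ Scheme := by
  rintro ⟨A, C, hA⟩
  obtain ⟨M, g, D, B, hM, hg, hD, hB, h1, h2, h3⟩ := num C
  have : NeZero M := ⟨hM.ne'⟩
  have : NeZero g := ⟨hg.ne'⟩
  have : NeZero D := ⟨hD.ne'⟩
  have : NeZero B := ⟨hB.ne'⟩
  obtain ⟨lp, lh, hlp, hlh, hA'⟩ := hA M g D B
  set N := (Fintype.card (Pt M g D B) + Fintype.card (Nm M g D B) + 1) ^ C with hN
  have hc : Fintype.card (Fin (N + 1)) = N + 1 := Fintype.card_fin _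
  have h4 := core M g D B (Fin (N + 1)) (fun S p => ⟨lp S p, Nat.lt_succ_of_le (hlp S p)⟩)
    (fun S η => ⟨lh S η, Nat.lt_succ_of_le (hlh S η)⟩) (fun a b => A a.val b.val)
    (fun S p i u v => hA' S p i u v) h1 (by rw [hc]; exact h2)
  rw [hc] at h4
  exact absurd h3 (not_lt.mpr h4)

/-- FINAL: no efficient local representation of the unit ball graphs in any dimension `≥ 2`. -/
theorem final_of (core : CoreStmt) (num : NumStmt) :
    ∀ d, 2 ≤ d → ¬ HasELR (UnitBall d) :=
  fun _ hd h => not_scheme core num (scheme_of_unitBall hd h)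

end Pool.Agent.Helper72.UD
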