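import Mathlib
import Pool.Agent.Helper72.UD.Fin
import Pool.Agent.Helper69.LB.Defs

/-! Quantitative form of the assembly of project UD (MP_1243c9): labels with `f n` bits. -/

namespace Pool.Agent.Helper72.UD

open Pool.Agent.Helper87.UD Pool.Agent.Helper72.ELR Pool.Agent.Helper69.LB

/-- labels with `f n` bits for all tables at once, `n` the number of names -/
def SchemeF (f : ℕ → ℝ) : Prop :=
  ∃ A : ℕ → ℕ → Bool, ∀ (M g D B : ℕ) [NeZero B],
    ∃ (lp : Sec M g B → Pt M g D B → ℕ) (lh : Sec M g B → Nm M g D B → ℕ),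
      (∀ S p, (lp S p : ℝ) < 2 ^ f (Fintype.card (Pt M g D B) + Fintype.card (Nm M g D B))) ∧
      (∀ S η, (lh S η : ℝ) < 2 ^ f (Fintype.card (Pt M g D B) + Fintype.card (Nm M g D B))) ∧
      ∀ S p i u v, A (lp S p) (lh S (nm S p i u v (p.1 u v))) = tt S p i u v

/-- the geometry gives the scheme -/
theorem schemeF_of_hasLabels {d : ℕ} (hd : 2 ≤ d) {f : ℕ → ℝ} (h : HasLabels (UnitBall d) f) :
    SchemeF f := by
  classical
  obtain ⟨d', rfl⟩ := Nat.exists_eq_add_of_le' hd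
  obtain ⟨A, -, hA⟩ := h
  refine ⟨fun a b => decide (A a b), ?_⟩
  intro M g D B _
  have key : ∀ S : Sec M g B, ∃ (lP : Pt M g D B → ℕ) (lH : Nm M g D B → ℕ),
      (∀ p, (lP p : ℝ) < 2 ^ f (Fintype.card (Pt M g D B) + Fintype.card (Nm M g D B))) ∧
      (∀ η, (lH η : ℝ) < 2 ^ f (Fintype.card (Pt M g D B) + Fintype.card (Nm M g D B))) ∧
      ∀ p i u v, decide (A (lP p) (lH (nm S p i u v (p.1 u v)))) = tt S p i u v := by
    intro S
    have hb : ∀ p : Pt M g D B, ∀ i : Fin M, ∀ k : Fin g ×ₗ Fin g,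
        (p.1 (ofLex k).1 (ofLex k).2).val +
          (if tt S p i (ofLex k).1 (ofLex k).2 then 1 else 0) ≤ D := by
      intro p i k
      have := (p.1 (ofLex k).1 (ofLex k).2).isLt
      split <;> omega
    obtain ⟨X, Y, hXY⟩ := geometry (ι := Fin g ×ₗ Fin g) (Λ := Fin M) (P := Pt M g D B)
      (H := Nm M g D B) d' D
      (fun p k => (p.1 (ofLex k).1 (ofLex k).2).val)
      (fun p i k => if tt S p i (ofLex k).1 (ofLex k).2 then 1 else 0) hb
      (fun η => η.1) (fun η => toLex (η.2.1, η.2.2.1))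
      (fun η j k => if S j (ofLex k).1 (ofLex k).2 (η.2.2.2.1 j (ofLex k).1)
        (η.2.2.2.2.1 j (ofLex k).2) then 1 else 0)
      (fun η k => (η.2.2.2.2.2.1 (ofLex k).1 (ofLex k).2).val)
      (fun η => η.2.2.2.2.2.2.val)
    set n := Fintype.card (Pt M g D B) + Fintype.card (Nm M g D B) with hn
    have hcard : Fintype.card (Pt M g D B ⊕ Nm M g D B) = n := Fintype.card_sum
    let e : Pt M g D B ⊕ Nm M g D B ≃ Fin n := Fintype.equivFinOfCardEq hcard
    let F : Fin n → EuclideanSpace ℝ (Fin (d' + 2)) := fun v => Sum.elim X Y (e.symm v)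
    let G : SimpleGraph (Fin n) :=
      { Adj := fun v w => v ≠ w ∧ dist (F v) (F w) ≤ 1
        symm := ⟨fun v w hvw => ⟨hvw.1.symm, by rw [dist_comm]; exact hvw.2⟩⟩
        loopless := ⟨fun v hv => hv.1 rfl⟩ }
    have hG : UnitBall (d' + 2) n G :=
      ⟨F, fun v w hvw => ⟨fun h => h.2, fun h => ⟨hvw, h⟩⟩⟩
    obtain ⟨l, hl, hadj⟩ := hA n G hG
    refine ⟨fun p => l (e (Sum.inl p)), fun η => l (e (Sum.inr η)), fun p => hl _, fun η => hl _,
      ?_⟩
    intro p i u v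
    have hyp1 : ∀ j < i, ∀ k : Fin g ×ₗ Fin g,
        (if S j (ofLex k).1 (ofLex k).2 (maskL i p.2.1 j (ofLex k).1)
          (maskL i p.2.2 j (ofLex k).2) = true then 1 else 0) =
        if tt S p j (ofLex k).1 (ofLex k).2 = true then 1 else 0 := by
      intro j hj k
      have e : S j (ofLex k).1 (ofLex k).2 (maskL i p.2.1 j (ofLex k).1)
          (maskL i p.2.2 j (ofLex k).2) = tt S p j (ofLex k).1 (ofLex k).2 := by
        simp only [maskL, if_pos hj, tt]
      rw [e]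
    have hyp2 : ∀ k < toLex (u, v), (maskD u v (ss S p i) (ofLex k).1 (ofLex k).2).val =
        (p.1 (ofLex k).1 (ofLex k).2).val +
          if tt S p i (ofLex k).1 (ofLex k).2 = true then 1 else 0 := by
      intro k hk
      rw [Prod.Lex.lt_iff] at hk
      simp only [ofLex_toLex] at hk
      simp only [maskD, if_pos hk, ss]
    have h4 : dist (X p) (Y (nm S p i u v (p.1 u v))) ≤ 1 ↔
        (p.1 u v).val < (p.1 u v).val + (if tt S p i u v = true then 1 else 0) :=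
      hXY p (nm S p i u v (p.1 u v)) hyp1 hyp2
    have h5 : (p.1 u v).val < (p.1 u v).val + (if tt S p i u v = true then 1 else 0) ↔
        tt S p i u v = true := by
      split_ifs with h6
      · simp [h6]
      · simp [h6]
    rw [h5] at h4
    rw [Bool.eq_iff_iff, decide_eq_true_iff, ← h4]
    have hne : e (Sum.inl p) ≠ e (Sum.inr (nm S p i u v (p.1 u v))) := by
      intro h0
      have := e.injective h0
      simp at this
    rw [← hadj _ _ hne]
    have hf1 : F (e (Sum.inl p)) = X p := by simp [F]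
    have hf2 : F (e (Sum.inr (nm S p i u v (p.1 u v)))) = Y (nm S p i u v (p.1 u v)) := by simp [F]
    constructor
    · rintro ⟨-, h2⟩
      rw [hf1, hf2] at h2
      exact h2
    · intro h2
      exact ⟨hne, by rw [hf1, hf2]; exact h2⟩
  choose lP lH h1 h2 h3 using key
  exact ⟨lP, lH, h1, h2, h3⟩

/-- the numerical lemma for labels with `f n` bits (statement) -/
def NumF (f : ℕ → ℝ) : Prop :=
  ∃ M g D B : ℕ, 0 < M ∧ 0 < g ∧ 0 < D ∧ 0 < B ∧ 2 * g ^ 2 ≤ D ∧
    0 ≤ f (Fintype.card (Pt M g D B) + Fintype.card (Nm M g D B)) ∧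
    24 * (M : ℝ) * (g : ℝ) ^ 2 * ((D : ℝ) + 2) *
      (f (Fintype.card (Pt M g D B) + Fintype.card (Nm M g D B)) + 1) ≤ B ∧
    f (Fintype.card (Pt M g D B) + Fintype.card (Nm M g D B)) + 1 < (M : ℝ) * (g : ℝ) ^ 2 / 2

/-- the quantitative contradiction -/
theorem not_schemeF (core : CoreStmt) {f : ℕ → ℝ} (num : NumF f) : ¬ SchemeF f := by
  rintro ⟨A, hA⟩
  obtain ⟨M, g, D, B, hM, hg, hD, hB, h1, h0, h2, h3⟩ := num
  have : NeZero M := ⟨hM.ne'⟩
  have : NeZero g := ⟨hg.ne'⟩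
  have : NeZero D := ⟨hD.ne'⟩
  have : NeZero B := ⟨hB.ne'⟩
  obtain ⟨lp, lh, hlp, hlh, hA'⟩ := hA M g D B
  set φ := f (Fintype.card (Pt M g D B) + Fintype.card (Nm M g D B)) with hφ
  set N := ⌈(2 : ℝ) ^ φ⌉₊ with hN
  have hpos : (1 : ℝ) ≤ 2 ^ φ := Real.one_le_rpow (by norm_num) h0
  have hNle : (2 : ℝ) ^ φ ≤ N := Nat.le_ceil _
  have hN1 : (1 : ℝ) ≤ N := hpos.trans hNle
  have hNlt : (N : ℝ) ≤ 2 ^ (φ + 1) := by
    have := Nat.ceil_lt_add_one (show (0 : ℝ) ≤ 2 ^ φ by positivity)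
    rw [Real.rpow_add (by norm_num), Real.rpow_one]
    have h4 : (N : ℝ) < 2 ^ φ + 1 := this
    linarith
  have hlog : Real.log N ≤ (φ + 1) * Real.log 2 := by
    calc Real.log N ≤ Real.log ((2 : ℝ) ^ (φ + 1)) := Real.log_le_log (by linarith) hNlt
      _ = (φ + 1) * Real.log 2 := Real.log_rpow (by norm_num) _
  have hl2 : 0 < Real.log 2 := Real.log_pos (by norm_num)
  have hlt : ∀ m : ℕ, (m : ℝ) < 2 ^ φ → m < N := by
    intro m hm
    exact_mod_cast lt_of_lt_of_le hm hNle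
  have hc : Fintype.card (Fin N) = N := Fintype.card_fin _
  have hcoef : 0 ≤ 24 * (M : ℝ) * (g : ℝ) ^ 2 * ((D : ℝ) + 2) := by positivity
  have h4 := core M g D B (Fin N) (fun S p => ⟨lp S p, hlt _ (hlp S p)⟩)
    (fun S η => ⟨lh S η, hlt _ (hlh S η)⟩) (fun a b => A a.val b.val)
    (fun S p i u v => hA' S p i u v) h1 (by
      rw [hc]
      calc 24 * (M : ℝ) * (g : ℝ) ^ 2 * ((D : ℝ) + 2) * Real.log N
          ≤ 24 * (M : ℝ) * (g : ℝ) ^ 2 * ((D : ℝ) + 2) * ((φ + 1) * Real.log 2) :=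
            mul_le_mul_of_nonneg_left hlog hcoef
        _ = (24 * (M : ℝ) * (g : ℝ) ^ 2 * ((D : ℝ) + 2) * (φ + 1)) * Real.log 2 := by ring
        _ ≤ B * Real.log 2 := mul_le_mul_of_nonneg_right h2 hl2.le)
  rw [hc] at h4
  have h5 : (M : ℝ) * (g : ℝ) ^ 2 * Real.log 2 / 2 ≤ (φ + 1) * Real.log 2 := h4.trans hlog
  have h6 : (φ + 1) * Real.log 2 < (M : ℝ) * (g : ℝ) ^ 2 / 2 * Real.log 2 :=
    mul_lt_mul_of_pos_right h3 hl2
  have h7 : (M : ℝ) * (g : ℝ) ^ 2 / 2 * Real.log 2 = (M : ℝ) * (g : ℝ) ^ 2 * Real.log 2 / 2 := by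
    ring
  linarith

/-- QUANTITATIVE FINAL: no labels with `f n` bits for the unit ball graphs in dimension `≥ 2`. -/
theorem final_quant (core : CoreStmt) {f : ℕ → ℝ} (num : NumF f) :
    ∀ d, 2 ≤ d → ¬ HasLabels (UnitBall d) f :=
  fun _ hd h => not_schemeF core num (schemeF_of_hasLabels hd h)

end Pool.Agent.Helper72.UD
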