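import Mathlib
import Pool.Agent.Helper72.UD.Fin
import Pool.Agent.Helper72.UD.Quant
import Pool.Agent.Helper87.UD.Main
import Pool.Agent.Helper75.UD.NumFin

/-! Unit ball graphs of dimension at least two have no efficient local representation. -/

namespace Pool.Agent.Helper72.UD

open Pool.Agent.Helper72.ELR Pool.Agent.Helper69.LB

theorem coreStmt : CoreStmt := by
  intro M g D B _ _ _ _ L _ lp lh A hA hD hB
  exact Pool.Agent.Helper87.UD.core (lp := lp) (lh := lh) (A := A) (hA := hA) (hD := hD) (hB := hB)

theorem not_hasELR_unitBall : ∀ d, 2 ≤ d → ¬ HasELR (UnitBall d) :=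
  final_of coreStmt Pool.Agent.Helper75.UD.numStmt

theorem not_hasLabels_unitBall {f : ℕ → ℝ} (num : NumF f) :
    ∀ d, 2 ≤ d → ¬ HasLabels (UnitBall d) f :=
  final_quant coreStmt num

end Pool.Agent.Helper72.UD
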